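import Mathlib

set_option autoImplicit false

/-!
# The zero estimate on a simplex

A polynomial of degree less than `S q` which vanishes at the lattice points `c` of the simplex
`c 0 + .. ≤ (S + 1) q` for which a linear form lies in an arc modulo one is zero, provided that the
multiples by the prime `q` of the coefficients of the linear form are equidistributed modulo one.
-/

namespace Pool.Agent.Helper76.ZD

open Finset MvPolynomial

/-- Exponents of total degree less than `D`. -/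
def T (r D : ℕ) : Finset (Fin r → ℕ) :=
  (Fintype.piFinset fun _ : Fin r => range D).filter fun l => ∑ i, l i < D

theorem mem_T {r D : ℕ} {l : Fin r → ℕ} : l ∈ T r D ↔ ∑ i, l i < D := by
  rw [T, mem_filter, Fintype.mem_piFinset]
  refine ⟨fun h => h.2, fun h => ⟨fun i => ?_, h⟩⟩
  rw [mem_range]
  exact lt_of_le_of_lt (single_le_sum (f := l) (fun _ _ => Nat.zero_le _) (mem_univ i)) h

theorem pow_choose (a : ℕ) : ∃ s : ℕ → ℚ, (∀ l, a < l → s l = 0) ∧
    ∀ c : ℕ, (c : ℚ) ^ a = ∑ l ∈ range (a + 1), s l * (c.choose l : ℚ) := by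
  induction a with
  | zero =>
    refine ⟨fun l => if l = 0 then 1 else 0, fun l hl => if_neg (by omega), fun c => ?_⟩
    simp
  | succ a ih =>
    obtain ⟨s, hs0, hs⟩ := ih
    refine ⟨fun l => (if l = 0 then 0 else (l : ℚ) * s (l - 1)) + (l : ℚ) * s l, fun l hl => ?_,
      fun c => ?_⟩
    · change (if l = 0 then (0 : ℚ) else (l : ℚ) * s (l - 1)) + (l : ℚ) * s l = 0
      rw [if_neg (by omega), hs0 l (by omega), hs0 (l - 1) (by omega)]
      ring
    · have h1 : ∀ l : ℕ, (c : ℚ) * (c.choose l : ℚ) = ((l : ℚ) + 1) * (c.choose (l + 1) : ℚ) +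
          (l : ℚ) * (c.choose l : ℚ) := by
        intro l
        have h2 := Nat.choose_succ_right_eq c l
        rcases le_or_gt l c with hl | hl
        · have h3 : ((c.choose (l + 1) : ℕ) : ℚ) * ((l : ℚ) + 1) = (c.choose l : ℚ) * ((c : ℚ) - l) := by
            rw [← Nat.cast_sub hl]
            exact_mod_cast h2
          linarith
        · rw [Nat.choose_eq_zero_of_lt hl, Nat.choose_eq_zero_of_lt (by omega)]
          simp
      rw [pow_succ, hs c, sum_mul, sum_range_succ' (fun l => ((if l = 0 then 0 else (l : ℚ) *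
        s (l - 1)) + (l : ℚ) * s l) * (c.choose l : ℚ))]
      simp only [if_true, Nat.cast_zero, zero_mul, add_zero, if_neg (Nat.succ_ne_zero _),
        Nat.add_sub_cancel]
      have h4 : ∑ l ∈ range (a + 1), s l * (c.choose l : ℚ) * (c : ℚ) =
          ∑ l ∈ range (a + 1), (((l : ℕ) : ℚ) + 1) * s l * (c.choose (l + 1) : ℚ) +
            ∑ l ∈ range (a + 1), (l : ℚ) * s l * (c.choose l : ℚ) := by
        rw [← sum_add_distrib]
        refine sum_congr rfl fun l _ => ?_
        rw [mul_assoc, mul_comm _ (c : ℚ), h1 l]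
        ring
      have h5 : ∑ l ∈ range (a + 1), (l : ℚ) * s l * (c.choose l : ℚ) =
          ∑ l ∈ range (a + 1), ((l + 1 : ℕ) : ℚ) * s (l + 1) * (c.choose (l + 1) : ℚ) := by
        have h6 := sum_range_succ' (fun l => (l : ℚ) * s l * (c.choose l : ℚ)) (a + 1)
        rw [sum_range_succ, hs0 (a + 1) (by omega)] at h6
        simpa using h6
      rw [h4, h5, ← sum_add_distrib]
      refine sum_congr rfl fun l _ => ?_
      push_cast
      ring

/-- Expansion in products of binomial coefficients. -/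
theorem binom_basis {r D : ℕ} (G : MvPolynomial (Fin r) ℚ) (hG : G.totalDegree < D) :
    ∃ g : (Fin r → ℕ) → ℚ, ∀ c : Fin r → ℕ, eval (fun i => (c i : ℚ)) G =
      ∑ l ∈ T r D, g l * ∏ i, ((c i).choose (l i) : ℚ) := by
  classical
  choose s hs0 hs using pow_choose
  refine ⟨fun l => ∑ a ∈ G.support, coeff a G * ∏ i, s (a i) (l i), fun c => ?_⟩
  rw [eval_eq']
  simp only [sum_mul]
  rw [sum_comm]
  refine sum_congr rfl fun a ha => ?_
  have h1 : ∏ i, ((c i : ℚ)) ^ a i = ∑ l ∈ Fintype.piFinset (fun i : Fin r => range (a i + 1)),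
      ∏ i, (s (a i) (l i) * ((c i).choose (l i) : ℚ)) := by
    rw [← prod_univ_sum (fun i : Fin r => range (a i + 1)) (fun i l => s (a i) l *
      ((c i).choose l : ℚ))]
    exact prod_congr rfl fun i _ => hs (a i) (c i)
  rw [h1, mul_sum]
  have had : ∑ i, a i < D := by
    have := le_totalDegree ha
    rw [Finsupp.sum_fintype _ _ (fun _ => rfl)] at this
    omega
  have hsub : Fintype.piFinset (fun i : Fin r => range (a i + 1)) ⊆ T r D := by
    intro l hl
    rw [Fintype.mem_piFinset] at hl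
    rw [mem_T]
    refine lt_of_le_of_lt (sum_le_sum fun i _ => ?_) had
    have := mem_range.mp (hl i)
    omega
  rw [← sum_subset hsub]
  · refine sum_congr rfl fun l _ => ?_
    rw [prod_mul_distrib]
    ring
  · intro l _ hl
    rw [Fintype.mem_piFinset, not_forall] at hl
    obtain ⟨i, hi⟩ := hl
    rw [mem_range, not_lt] at hi
    rw [prod_eq_zero (mem_univ i) (hs0 (a i) (l i) (by omega))]
    ring

/-- A nonzero family of rationals is proportional to a family of integers which are not all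
divisible by `q`. -/
theorem primitive {α : Type*} (s : Finset α) (g : α → ℚ) (q : ℕ) (hq : q.Prime)
    (hg : ∃ l ∈ s, g l ≠ 0) : ∃ (G : α → ℤ) (lam : ℚ), lam ≠ 0 ∧ (∀ l ∈ s, (G l : ℚ) = lam * g l) ∧
      ∃ l ∈ s, ¬ (q : ℤ) ∣ G l := by
  classical
  -- common denominator
  set N : ℕ := ∏ l ∈ s, (g l).den with hN
  have hN0 : N ≠ 0 := prod_ne_zero_iff.mpr fun l _ => (g l).den_nz
  have h1 : ∀ l ∈ s, ∃ z : ℤ, (z : ℚ) = N * g l := by
    intro l hl
    obtain ⟨k, hk⟩ := dvd_prod_of_mem (fun l => (g l).den) hl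
    refine ⟨k * (g l).num, ?_⟩
    rw [hN, hk]
    push_cast
    have h2 : (g l) * ((g l).den : ℚ) = ((g l).num : ℚ) := Rat.mul_den_eq_num (g l)
    rw [← h2]
    ring
  choose! z hz using h1
  have hs : s.Nonempty := by
    obtain ⟨l, hl, _⟩ := hg
    exact ⟨l, hl⟩
  obtain ⟨w, hw, hw1⟩ := extract_gcd z hs
  have hgcd : s.gcd z ≠ 0 := by
    intro h
    obtain ⟨l, hl, hl0⟩ := hg
    rw [Finset.gcd_eq_zero_iff] at h
    have := hz l hl
    rw [h l hl, Int.cast_zero] at this
    have h2 : (N : ℚ) ≠ 0 := by exact_mod_cast hN0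
    exact hl0 (by rcases mul_eq_zero.mp this.symm with h | h; exact absurd h h2; exact h)
  refine ⟨w, N / (s.gcd z : ℤ), ?_, fun l hl => ?_, ?_⟩
  · have h2 : (N : ℚ) ≠ 0 := by exact_mod_cast hN0
    have h3 : ((s.gcd z : ℤ) : ℚ) ≠ 0 := by exact_mod_cast hgcd
    positivity
  · have h3 : ((s.gcd z : ℤ) : ℚ) ≠ 0 := by exact_mod_cast hgcd
    have h4 := hz l hl
    rw [hw l hl] at h4
    push_cast at h4
    rw [div_mul_eq_mul_div, eq_div_iff h3, ← h4]
    ring
  · by_contra hcon
    push Not at hcon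
    have h5 : (q : ℤ) ∣ s.gcd w := dvd_gcd fun l hl => hcon l hl
    rw [hw1] at h5
    exact (Nat.prime_iff_prime_int.mp hq).not_isUnit (isUnit_of_dvd_one h5)


section nonvanish

variable {q : ℕ} [Fact q.Prime] {r : ℕ}

/-- The linear forms `z i - z (i + 1)`. -/
noncomputable def Lf (i : Fin r) : MvPolynomial (Fin r) (ZMod q) :=
  if h : (i : ℕ) + 1 < r then X i - X ⟨i + 1, h⟩ else X i

/-- The tail sums. -/
def tau (y : Fin r → ℕ) (i : Fin r) : ℕ := ∑ l ∈ Ici i, y l

theorem tau_eq (y : Fin r → ℕ) (i : Fin r) :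
    tau y i = y i + if h : (i : ℕ) + 1 < r then tau y ⟨i + 1, h⟩ else 0 := by
  rw [tau, ← Ioi_insert, sum_insert (by simp)]
  congr 1
  split_ifs with h
  · rw [tau]
    congr 1
    ext j
    simp only [mem_Ioi, mem_Ici, Fin.lt_def, Fin.le_def]
    omega
  · rw [sum_eq_zero]
    intro j hj
    rw [mem_Ioi, Fin.lt_def] at hj
    have := j.isLt
    omega

theorem eval_Lf (y : Fin r → ℕ) (i : Fin r) :
    eval (fun i => ((tau y i : ℕ) : ZMod q)) (Lf i) = (y i : ZMod q) := by
  rw [Lf]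
  have h1 := tau_eq y i
  split_ifs with h
  · rw [dif_pos h] at h1
    rw [map_sub, eval_X, eval_X, h1]
    push_cast
    ring
  · rw [dif_neg h, add_zero] at h1
    rw [eval_X, h1]

theorem totalDegree_Lf (i : Fin r) : (Lf i : MvPolynomial (Fin r) (ZMod q)).totalDegree ≤ 1 := by
  rw [Lf]
  split_ifs with h
  · refine (totalDegree_sub _ _).trans ?_
    rw [totalDegree_X, totalDegree_X, max_self]
  · rw [totalDegree_X]

/-- The binomial polynomial at a linear form. -/
noncomputable def Bf (k : ℕ) (i : Fin r) : MvPolynomial (Fin r) (ZMod q) :=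
  C ((k.factorial : ZMod q)⁻¹) * Polynomial.aeval (Lf i) (descPochhammer (ZMod q) k)

theorem totalDegree_Bf (k : ℕ) (i : Fin r) :
    (Bf k i : MvPolynomial (Fin r) (ZMod q)).totalDegree ≤ k := by
  rw [Bf]
  refine (totalDegree_mul _ _).trans ?_
  rw [totalDegree_C, zero_add, Polynomial.aeval_eq_sum_range]
  refine (totalDegree_finsetSum _ _).trans ?_
  refine Finset.sup_le fun j hj => ?_
  rw [mem_range] at hj
  refine (totalDegree_smul_le _ _).trans ((totalDegree_pow _ _).trans ?_)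
  have h1 := descPochhammer_natDegree (ZMod q) k
  have h2 := totalDegree_Lf (q := q) i
  calc j * (Lf i : MvPolynomial (Fin r) (ZMod q)).totalDegree ≤ j * 1 := Nat.mul_le_mul_left _ h2
    _ ≤ k := by omega

theorem eval_Bf {k : ℕ} (hk : k < q) (y : Fin r → ℕ) (i : Fin r) :
    eval (fun i => ((tau y i : ℕ) : ZMod q)) (Bf k i) = ((y i).choose k : ZMod q) := by
  have hp : (k.factorial : ZMod q) ≠ 0 := by
    rw [Ne, ZMod.natCast_eq_zero_iff, (Fact.out : q.Prime).dvd_factorial]
    omega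
  rw [Bf, map_mul, eval_C]
  have h1 : eval (fun i => ((tau y i : ℕ) : ZMod q)) (Polynomial.aeval (Lf i)
      (descPochhammer (ZMod q) k)) = (descPochhammer (ZMod q) k).eval (y i : ZMod q) := by
    have h2 : (eval (fun i => ((tau y i : ℕ) : ZMod q))).comp
        (algebraMap (ZMod q) (MvPolynomial (Fin r) (ZMod q))) = RingHom.id (ZMod q) :=
      RingHom.ext fun x => by simp [MvPolynomial.algebraMap_eq]
    rw [Polynomial.aeval_def, Polynomial.hom_eval₂, h2, eval_Lf y i, Polynomial.eval₂_id]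
  rw [h1, descPochhammer_eval_eq_descFactorial, Nat.descFactorial_eq_factorial_mul_choose]
  push_cast
  rw [← mul_assoc, inv_mul_cancel₀ hp, one_mul]

theorem nonvanish {S : ℕ} (hS : S < q) (U : Finset (Fin r → ℕ)) (hU : ∀ k ∈ U, ∑ i, k i < S)
    (g : (Fin r → ℕ) → ZMod q) (hne : ∃ k ∈ U, g k ≠ 0) :
    ∃ a : Fin r → ℕ, ∑ i, a i < S ∧ ∀ W : Fin r → ℕ, ∃ k : Fin r → ℕ, (∀ i, k i ≤ a i) ∧
      ∀ y : Fin r → ℕ, (∀ i, tau y i = W i + k i) →
        ∑ k' ∈ U, g k' * ∏ i, ((y i).choose (k' i) : ZMod q) ≠ 0 := by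
  classical
  have hlt : ∀ k' ∈ U, ∀ i, k' i < q := fun k' hk' i =>
    lt_of_le_of_lt (single_le_sum (f := k') (fun _ _ => Nat.zero_le _) (mem_univ i))
      ((hU k' hk').trans hS)
  set P : MvPolynomial (Fin r) (ZMod q) := ∑ k' ∈ U, C (g k') * ∏ i, Bf (k' i) i with hP
  have hev : ∀ y : Fin r → ℕ, eval (fun i => ((tau y i : ℕ) : ZMod q)) P =
      ∑ k' ∈ U, g k' * ∏ i, ((y i).choose (k' i) : ZMod q) := by
    intro y
    rw [hP, map_sum]
    refine sum_congr rfl fun k' hk' => ?_
    rw [map_mul, eval_C, map_prod]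
    congr 1
    exact prod_congr rfl fun i _ => eval_Bf (hlt k' hk' i) y i
  have hP0 : P ≠ 0 := by
    obtain ⟨k0, hk0, hmin⟩ := exists_min_image (U.filter fun k => g k ≠ 0) (fun k => ∑ i, k i)
      (by obtain ⟨k, hk, hk'⟩ := hne; exact ⟨k, mem_filter.mpr ⟨hk, hk'⟩⟩)
    rw [mem_filter] at hk0
    intro h0
    have h1 := hev k0
    rw [h0, map_zero, sum_eq_single_of_mem k0 hk0.1] at h1
    · rw [prod_congr rfl fun i _ => by rw [Nat.choose_self, Nat.cast_one], prod_const_one,
        mul_one] at h1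
      exact hk0.2 h1.symm
    · intro k' hk' hne'
      by_cases hg : g k' = 0
      · rw [hg, zero_mul]
      · have h2 := hmin k' (mem_filter.mpr ⟨hk', hg⟩)
        have h3 : ∃ i, k0 i < k' i := by
          by_contra hcon
          push Not at hcon
          apply hne'
          have h4 : ∑ i, k' i = ∑ i, k0 i := le_antisymm (sum_le_sum fun i _ => hcon i) h2
          funext i
          exact (sum_eq_sum_iff_of_le fun i _ => hcon i).mp h4 i (mem_univ i)
        obtain ⟨i, hi⟩ := h3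
        rw [prod_eq_zero (mem_univ i) (by rw [Nat.choose_eq_zero_of_lt hi, Nat.cast_zero]),
          mul_zero]
  have hdeg : P.totalDegree < S := by
    have hS0 : 0 < S := by
      obtain ⟨k, hk, _⟩ := hne
      have := hU k hk
      omega
    rw [hP]
    refine lt_of_le_of_lt (totalDegree_finsetSum _ _) ?_
    rw [Finset.sup_lt_iff (by simpa using hS0)]
    intro k' hk'
    refine lt_of_le_of_lt (totalDegree_mul _ _) ?_
    rw [totalDegree_C, zero_add]
    refine lt_of_le_of_lt (totalDegree_finsetProd _ _) ?_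
    exact lt_of_le_of_lt (sum_le_sum fun i _ => totalDegree_Bf (k' i) i) (hU k' hk')
  obtain ⟨t, ht, htd⟩ : ∃ t ∈ P.support, P.totalDegree = t.degree := by
    obtain ⟨t, ht, htd⟩ := exists_mem_eq_sup P.support (support_nonempty.mpr hP0)
      (fun s => s.sum fun _ e => e)
    refine ⟨t, ht, ?_⟩
    rw [totalDegree, htd]
    rfl
  have hta : ∑ i, t i < S := by
    have : t.degree = ∑ i, t i := Finsupp.degree_eq_sum t
    omega
  refine ⟨fun i => t i, hta, fun W => ?_⟩
  obtain ⟨z, hz, hz0⟩ := combinatorial_nullstellensatz_exists_eval_nonzero P t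
    (mem_support_iff.mp ht) htd
    (fun i => (range (t i + 1)).image (fun k => ((W i + k : ℕ) : ZMod q))) (by
      intro i
      rw [card_image_of_injOn, card_range]
      · omega
      · intro k hk k' hk' h
        simp only [coe_range, Set.mem_Iio] at hk hk'
        have h1 : t i ≤ ∑ i, t i := single_le_sum (f := fun i => t i) (fun _ _ => Nat.zero_le _)
          (mem_univ i)
        have h2 : ((W i + k : ℕ) : ZMod q) = ((W i + k' : ℕ) : ZMod q) := h
        push_cast at h2
        have h3 : ((k : ℕ) : ZMod q) = ((k' : ℕ) : ZMod q) := add_left_cancel h2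
        rw [ZMod.natCast_eq_natCast_iff'] at h3
        rwa [Nat.mod_eq_of_lt (by omega), Nat.mod_eq_of_lt (by omega)] at h3)
  have h1 : ∀ i, ∃ k, k ≤ t i ∧ ((W i + k : ℕ) : ZMod q) = z i := by
    intro i
    obtain ⟨k, hk, hk'⟩ := mem_image.mp (hz i)
    exact ⟨k, by have := mem_range.mp hk; omega, hk'⟩
  choose k hk hk' using h1
  refine ⟨k, hk, fun y hy => ?_⟩
  rw [← hev y]
  have h2 : (fun i => ((tau y i : ℕ) : ZMod q)) = z := by
    funext i
    rw [hy i, hk' i]
  rw [h2]
  exact hz0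

end nonvanish

/-- The polynomials in the binomial basis: a nonvanishing value in a small region. -/
theorem lucas {q : ℕ} [Fact q.Prime] {r S : ℕ} (hS : S < q) (g : (Fin r → ℕ) → ZMod q)
    (hne : ∃ l ∈ T r (S * q), g l ≠ 0) :
    ∃ (b a : Fin r → ℕ), ∑ i, b i + (∑ i, a i) * q < S * q ∧ ∀ W : Fin r → ℕ, ∃ k : Fin r → ℕ,
      (∀ i, k i ≤ a i) ∧ ∀ y : Fin r → ℕ, (∀ i, tau y i = W i + k i) →
        ∑ l ∈ T r (S * q), g l * ∏ i, ((b i + q * y i).choose (l i) : ZMod q) ≠ 0 := by
  classical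
  have hq : q.Prime := Fact.out
  obtain ⟨l0, hl0, hmin⟩ := exists_min_image ((T r (S * q)).filter fun l => g l ≠ 0)
    (fun l => ∑ i, l i % q) (by obtain ⟨k, hk, hk'⟩ := hne; exact ⟨k, mem_filter.mpr ⟨hk, hk'⟩⟩)
  rw [mem_filter] at hl0
  set b : Fin r → ℕ := fun i => l0 i % q with hb
  -- the exponents with the residues `b`
  set U : Finset (Fin r → ℕ) := ((T r (S * q)).filter fun l => ∀ i, l i % q = b i).image
    (fun l i => l i / q) with hU
  set S' : ℕ := (S * q - 1 - ∑ i, b i) / q + 1 with hS'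
  have hbs : ∑ i, b i < S * q := by
    refine lt_of_le_of_lt (sum_le_sum fun i _ => Nat.mod_le (l0 i) q) (mem_T.mp hl0.1)
  have hS'' : (S' - 1) * q + ∑ i, b i < S * q := by
    have h1 : (S * q - 1 - ∑ i, b i) / q * q ≤ S * q - 1 - ∑ i, b i := Nat.div_mul_le_self _ _
    have h2 : S' - 1 = (S * q - 1 - ∑ i, b i) / q := by rw [hS', Nat.add_sub_cancel]
    rw [h2]
    generalize (S * q - 1 - ∑ i, b i) / q * q = z at h1 ⊢
    omega
  have hS3 : S' < q := by
    have h1 : (S * q - 1 - ∑ i, b i) / q < S := by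
      rw [Nat.div_lt_iff_lt_mul hq.pos]
      omega
    rw [hS']
    omega
  have hrec : ∀ l : Fin r → ℕ, (∀ i, l i % q = b i) → l = fun i => b i + q * (l i / q) := by
    intro l hl
    funext i
    rw [← hl i, Nat.mod_add_div]
  have hU1 : ∀ k ∈ U, ∑ i, k i < S' := by
    intro k hk
    obtain ⟨l, hl, rfl⟩ := mem_image.mp hk
    rw [mem_filter, mem_T] at hl
    have h1 : ∑ i, l i = ∑ i, b i + q * ∑ i, l i / q := by
      rw [mul_sum, ← sum_add_distrib]
      refine sum_congr rfl fun i _ => ?_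
      rw [← hl.2 i, Nat.mod_add_div]
    have h2 : (∑ i, l i / q) ≤ (S * q - 1 - ∑ i, b i) / q := by
      rw [Nat.le_div_iff_mul_le hq.pos, mul_comm]
      have h3 := hl.1
      rw [h1] at h3
      generalize q * ∑ i, l i / q = z at h3 ⊢
      omega
    rw [hS']
    exact Nat.lt_succ_of_le h2
  obtain ⟨a, ha, H⟩ := nonvanish (q := q) hS3 U hU1 (fun k => g fun i => b i + q * k i)
    ⟨fun i => l0 i / q, mem_image.mpr ⟨l0, mem_filter.mpr ⟨hl0.1, fun i => rfl⟩, rfl⟩, by
      have h1 := hrec l0 (fun i => rfl)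
      simp only
      rw [← h1]
      exact hl0.2⟩
  refine ⟨b, a, ?_, fun W => ?_⟩
  · have h1 : (∑ i, a i) * q ≤ (S' - 1) * q := Nat.mul_le_mul_right _ (by omega)
    omega
  · obtain ⟨k, hk, hy⟩ := H W
    refine ⟨k, hk, fun y hyk => ?_⟩
    have h1 := hy y hyk
    intro h0
    apply h1
    rw [← h0]
    -- reduce the sum over all exponents
    have hlucas : ∀ l : Fin r → ℕ, ∏ i, ((b i + q * y i).choose (l i) : ZMod q) =
        ∏ i, (((b i).choose (l i % q) : ZMod q) * ((y i).choose (l i / q) : ZMod q)) := by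
      intro l
      refine prod_congr rfl fun i _ => ?_
      have h2 := Choose.choose_modEq_choose_mod_mul_choose_div_nat (n := b i + q * y i)
        (k := l i) (p := q)
      have h3 : (b i + q * y i) % q = b i := by
        rw [Nat.add_mul_mod_self_left]
        exact Nat.mod_eq_of_lt (Nat.mod_lt _ hq.pos)
      have h4 : (b i + q * y i) / q = y i := by
        rw [Nat.add_mul_div_left _ _ hq.pos, Nat.div_eq_of_lt (Nat.mod_lt _ hq.pos), zero_add]
      rw [h3, h4, ← ZMod.natCast_eq_natCast_iff] at h2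
      exact_mod_cast h2
    have hz : ∀ l ∈ T r (S * q), ¬ (∀ i, l i % q = b i) →
        g l * ∏ i, ((b i + q * y i).choose (l i) : ZMod q) = 0 := by
      intro l hl hne'
      by_cases hg : g l = 0
      · rw [hg, zero_mul]
      · have h2 := hmin l (mem_filter.mpr ⟨hl, hg⟩)
        have h3 : ∃ i, b i < l i % q := by
          by_contra hcon
          push Not at hcon
          apply hne'
          have h4 : ∑ i, l i % q = ∑ i, b i := le_antisymm (sum_le_sum fun i _ => hcon i) h2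
          intro i
          exact (sum_eq_sum_iff_of_le fun i _ => hcon i).mp h4 i (mem_univ i)
        obtain ⟨i, hi⟩ := h3
        rw [hlucas, prod_eq_zero (mem_univ i), mul_zero]
        rw [Nat.choose_eq_zero_of_lt hi, Nat.cast_zero, zero_mul]
    rw [← sum_filter_add_sum_filter_not (T r (S * q)) (fun l => ∀ i, l i % q = b i)
      (fun l => g l * ∏ i, ((b i + q * y i).choose (l i) : ZMod q)),
      sum_eq_zero (s := (T r (S * q)).filter fun l => ¬ ∀ i, l i % q = b i) (by
        intro l hl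
        rw [mem_filter] at hl
        exact hz l hl.1 hl.2), add_zero, hU, sum_image]
    · refine sum_congr rfl fun l hl => ?_
      rw [mem_filter] at hl
      rw [← hrec l hl.2, hlucas]
      congr 1
      refine prod_congr rfl fun i _ => ?_
      rw [hl.2 i, Nat.choose_self, Nat.cast_one, one_mul]
    · intro l hl l' hl' h
      rw [mem_coe, mem_filter] at hl hl'
      rw [hrec l hl.2, hrec l' hl'.2]
      funext i
      have h5 : l i / q = l' i / q := congrFun h i
      rw [h5]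

/-- A point with prescribed tail sums. -/
theorem exists_tau {r : ℕ} (Z : ℕ → ℕ) (hZ : ∀ i, Z (i + 1) ≤ Z i) (hr : Z r = 0) :
    ∃ y : Fin r → ℕ, ∀ i : Fin r, tau y i = Z i := by
  refine ⟨fun i => Z i - Z (i + 1), ?_⟩
  have key : ∀ n : ℕ, ∀ i : Fin r, r - (i : ℕ) = n → tau (fun i : Fin r => Z i - Z (i + 1)) i = Z i := by
    intro n
    induction n with
    | zero =>
      intro i hi
      have := i.isLt
      omega
    | succ n ih =>
      intro i hi
      rw [tau_eq]
      split_ifs with h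
      · rw [ih ⟨i + 1, h⟩ (by simp only; omega)]
        have := hZ i
        simp only
        omega
      · have h1 : (i : ℕ) + 1 = r := by
          have := i.isLt
          omega
        rw [h1, hr]
        omega
  exact fun i => key _ i rfl

theorem sum_tau {r : ℕ} (y : Fin r → ℕ) : ∑ i, tau y i = ∑ i : Fin r, ((i : ℕ) + 1) * y i := by
  unfold tau
  have h1 : ∀ i : Fin r, ∑ l ∈ Ici i, y l = ∑ l, if i ≤ l then y l else 0 := by
    intro i
    rw [← sum_filter]
    congr 1
    ext l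
    simp
  rw [sum_congr rfl fun i _ => h1 i, sum_comm]
  refine sum_congr rfl fun l _ => ?_
  rw [← sum_filter, sum_const, smul_eq_mul]
  congr 1
  have : (univ.filter fun i : Fin r => i ≤ l) = Iic l := by
    ext i
    simp
  rw [this, Fin.card_Iic]

theorem sum_le_tau {r : ℕ} (y : Fin r → ℕ) (B : ℕ) (h : ∀ i, tau y i ≤ B) : ∑ i, y i ≤ B := by
  rcases r with _ | r
  · simp
  · refine le_trans (le_of_eq ?_) (h 0)
    rw [tau]
    congr 1
    ext i
    simp

/-- The position of the linear form. -/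
theorem position {r S q : ℕ} (_hS : 0 < S) (al : Fin r → ℝ) (be d : ℝ) (h0 : 0 ≤ d)
    (hd : ∀ i, ∃ n : ℤ, |q * al i - ((i : ℕ) + 1) / (r + 1) - n| ≤ d)
    (b a : Fin r → ℕ) (ha : ∑ i, a i < S) :
    ∃ W : Fin r → ℕ, ∀ k : Fin r → ℕ, (∀ i, k i ≤ a i) → ∃ y : Fin r → ℕ,
      (∀ i, tau y i = W i + k i) ∧ ∑ i, y i ≤ ∑ i, a i + 1 ∧
      ∃ n : ℤ, be ≤ ∑ i, al i * ((b i + q * y i : ℕ) : ℝ) - n ∧
        ∑ i, al i * ((b i + q * y i : ℕ) : ℝ) - n < be + S * (1 / (r + 1) + 2 * d) := by
  classical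
  choose N hN using hd
  -- the extended exponent
  let A : ℕ → ℕ := fun j => if h : j < r then a ⟨j, h⟩ else 0
  have hA : ∀ i : Fin r, A i = a i := fun i => by simp only [A, i.isLt, dif_pos]
  set x0 : ℝ := ∑ i, al i * (b i : ℝ) with hx0
  set w0 : ℕ := ∑ i : Fin r, ∑ l ∈ Ico ((i : ℕ) + 1) r, A l with hw0
  have hr0 : (0 : ℝ) < (r : ℝ) + 1 := by positivity
  set z : ℤ := ⌈(be + S * d - (x0 + w0 / (r + 1))) * (r + 1)⌉ with hz
  obtain ⟨m, hm, n0, hmz⟩ : ∃ m : ℕ, m ≤ r ∧ ∃ n0 : ℤ, z = m + (r + 1) * n0 := by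
    have h1 := Int.emod_nonneg z (by omega : ((r : ℤ) + 1) ≠ 0)
    have h2 := Int.emod_lt_of_pos z (by omega : (0 : ℤ) < (r : ℤ) + 1)
    refine ⟨(z % ((r : ℤ) + 1)).toNat, by omega, z / ((r : ℤ) + 1), ?_⟩
    rw [Int.toNat_of_nonneg h1]
    exact (Int.emod_add_mul_ediv z _).symm
  let W : ℕ → ℕ := fun j => ∑ l ∈ Ico (j + 1) r, A l + if j + 1 ≤ m then 1 else 0
  refine ⟨fun i => W i, fun k hk => ?_⟩
  let K : ℕ → ℕ := fun j => if h : j < r then k ⟨j, h⟩ else 0
  have hK : ∀ i : Fin r, K i = k i := fun i => by simp only [K, i.isLt, dif_pos]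
  have hKA : ∀ j, K j ≤ A j := by
    intro j
    simp only [K, A]
    split_ifs with h
    · exact hk _
    · exact le_rfl
  obtain ⟨y, hy⟩ := exists_tau (r := r) (fun j => W j + K j) (by
    intro j
    simp only [W]
    have h1 := hKA (j + 1)
    have h2 : ∑ l ∈ Ico (j + 1) r, A l = (if j + 1 < r then A (j + 1) else 0) +
        ∑ l ∈ Ico (j + 1 + 1) r, A l := by
      split_ifs with h
      · rw [sum_eq_sum_Ico_succ_bot h]
      · rw [Ico_eq_empty (by omega), Ico_eq_empty (by omega)]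
        simp
    have h3 : A (j + 1) = if j + 1 < r then A (j + 1) else 0 := by
      split_ifs with h
      · rfl
      · simp only [A]
        rw [dif_neg h]
    have h4 : (if j + 1 + 1 ≤ m then 1 else 0) ≤ (if j + 1 ≤ m then 1 else 0) := by
      split_ifs <;> omega
    rw [← h3] at h2
    omega) (by
    simp only [W, K]
    rw [Ico_eq_empty (by omega), if_neg (by omega), dif_neg (by omega)]
    simp)
  have hy' : ∀ i : Fin r, tau y i = W i + k i := fun i => by rw [hy i, hK i]
  have hysum : ∑ i, y i ≤ ∑ i, a i + 1 := by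
    refine sum_le_tau y _ fun i => ?_
    rw [hy' i]
    have h1 : ∑ l ∈ Ico ((i : ℕ) + 1) r, A l + A i ≤ ∑ i, a i := by
      have h2 : ∑ i : Fin r, a i = ∑ l ∈ range r, A l := by
        rw [← Fin.sum_univ_eq_sum_range (fun l => A l) r]
        exact sum_congr rfl fun i _ => (hA i).symm
      rw [h2, add_comm, ← sum_eq_sum_Ico_succ_bot i.isLt (fun l => A l), range_eq_Ico]
      exact sum_le_sum_of_subset (Ico_subset_Ico (Nat.zero_le _) le_rfl)
    have h3 := hk i
    have h4 : (if (i : ℕ) + 1 ≤ m then 1 else 0) ≤ 1 := by split_ifs <;> omega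
    rw [hA i] at h1
    simp only [W]
    omega
  refine ⟨y, hy', hysum, ?_⟩
  -- the linear form
  have hsum : ∑ i, al i * ((b i + q * y i : ℕ) : ℝ) = x0 + (∑ i, (N i : ℝ) * y i +
      (w0 + m + ∑ i, (k i : ℝ)) / (r + 1) + ∑ i, (q * al i - ((i : ℕ) + 1) / (r + 1) - N i) *
        (y i : ℝ)) := by
    have h1 : (w0 + m + ∑ i, (k i : ℝ)) = ∑ i : Fin r, (((i : ℕ) : ℝ) + 1) * (y i : ℝ) := by
      have h2 := sum_tau y
      rw [sum_congr rfl fun i _ => hy' i, sum_add_distrib] at h2
      have h3 : ∑ i : Fin r, W i = w0 + m := by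
        simp only [W]
        rw [sum_add_distrib, ← hw0]
        congr 1
        rw [Fin.sum_univ_eq_sum_range (fun l => if l + 1 ≤ m then 1 else 0) r, ← sum_filter,
          sum_const, smul_eq_mul, mul_one]
        have h4 : (range r).filter (fun l => l + 1 ≤ m) = range m := by
          ext l
          rw [mem_filter, mem_range, mem_range]
          omega
        rw [h4, card_range]
      rw [h3] at h2
      exact_mod_cast h2
    rw [h1, hx0, sum_div, ← sum_add_distrib, ← sum_add_distrib, ← sum_add_distrib]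
    refine sum_congr rfl fun i _ => ?_
    push_cast
    field_simp
    ring
  have herr : |∑ i, (q * al i - ((i : ℕ) + 1) / (r + 1) - N i) * (y i : ℝ)| ≤ S * d := by
    refine (abs_sum_le_sum_abs _ _).trans ?_
    calc ∑ i, |(q * al i - ((i : ℕ) + 1) / (r + 1) - N i) * (y i : ℝ)| ≤ ∑ i, d * (y i : ℝ) := by
          refine sum_le_sum fun i _ => ?_
          rw [abs_mul, Nat.abs_cast]
          exact mul_le_mul_of_nonneg_right (hN i) (Nat.cast_nonneg _)
      _ = ((∑ i, y i : ℕ) : ℝ) * d := by rw [← mul_sum]; push_cast; ring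
      _ ≤ S * d := by
          refine mul_le_mul_of_nonneg_right ?_ h0
          exact_mod_cast (show ∑ i, y i ≤ S by omega)
  have hk0 : (0 : ℝ) ≤ ∑ i, (k i : ℝ) := sum_nonneg fun i _ => Nat.cast_nonneg _
  have hk1 : ∑ i, (k i : ℝ) ≤ S - 1 := by
    have h1 : ∑ i, k i + 1 ≤ S := by
      have := sum_le_sum fun (i : Fin r) (_ : i ∈ univ) => hk i
      omega
    have h2 : ((∑ i, k i : ℕ) : ℝ) + 1 ≤ S := by exact_mod_cast h1
    push_cast at h2
    linarith
  have hz1 : (be + S * d - (x0 + w0 / (r + 1))) * (r + 1) ≤ z := Int.le_ceil _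
  have hz2 : (z : ℝ) < (be + S * d - (x0 + w0 / (r + 1))) * (r + 1) + 1 := Int.ceil_lt_add_one _
  have hzr : (z : ℝ) = m + (r + 1) * n0 := by rw [hmz]; push_cast; ring
  rw [hzr] at hz1 hz2
  have hz3 : be + S * d - (x0 + w0 / (r + 1)) ≤ m / (r + 1) + n0 := by
    have h1 : be + S * d - (x0 + w0 / (r + 1)) ≤ (m + (r + 1) * n0) / (r + 1) := by
      rw [le_div_iff₀ hr0]
      exact hz1
    have h2 : ((m : ℝ) + (r + 1) * n0) / (r + 1) = m / (r + 1) + n0 := by
      field_simp
    rwa [h2] at h1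
  have hz4 : (m : ℝ) / (r + 1) + n0 < be + S * d - (x0 + w0 / (r + 1)) + 1 / (r + 1) := by
    have h1 : ((m : ℝ) + (r + 1) * n0) / (r + 1) < be + S * d - (x0 + w0 / (r + 1)) + 1 / (r + 1) := by
      have h3 : (be + S * d - (x0 + w0 / (r + 1)) + 1 / (r + 1)) * ((r : ℝ) + 1) =
          (be + S * d - (x0 + w0 / (r + 1))) * (r + 1) + 1 := by
        rw [add_mul (be + S * d - (x0 + w0 / (r + 1))) (1 / ((r : ℝ) + 1)) ((r : ℝ) + 1), one_div,
          inv_mul_cancel₀ hr0.ne']
      rw [div_lt_iff₀ hr0, h3]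
      exact hz2
    have h2 : ((m : ℝ) + (r + 1) * n0) / (r + 1) = m / (r + 1) + n0 := by
      field_simp
    rwa [h2] at h1
  have hE := abs_le.mp herr
  have hk2 : (∑ i, (k i : ℝ)) / (r + 1) ≤ (S - 1) / (r + 1) :=
    div_le_div_of_nonneg_right hk1 hr0.le
  have hk3 : 0 ≤ (∑ i, (k i : ℝ)) / (r + 1) := div_nonneg hk0 hr0.le
  have hcast : ((∑ i, N i * y i - n0 : ℤ) : ℝ) = ∑ i, (N i : ℝ) * y i - n0 := by push_cast; ring
  have hsplit : ((w0 : ℝ) + m + ∑ i, (k i : ℝ)) / (r + 1) = w0 / (r + 1) + m / (r + 1) +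
      (∑ i, (k i : ℝ)) / (r + 1) := by
    rw [add_div, add_div]
  have hS1 : ((S : ℝ) - 1) / (r + 1) = S / (r + 1) - 1 / (r + 1) := sub_div _ _ _
  refine ⟨∑ i, N i * y i - n0, ?_, ?_⟩
  · rw [hsum, hcast, hsplit]
    linarith [hE.1]
  · rw [hsum, hcast, hsplit]
    have h5 : (S : ℝ) * (1 / (r + 1) + 2 * d) = S / (r + 1) + 2 * (S * d) := by ring
    rw [h5]
    linarith [hE.2]

/-- **The zero estimate.** -/
theorem zero_est (r S q : ℕ) (hq : q.Prime) (hS : S < q) (G : MvPolynomial (Fin r) ℚ)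
    (hG : G.totalDegree < S * q) (al : Fin r → ℝ) (be ep d : ℝ) (h0 : 0 ≤ d)
    (hd : ∀ i, ∃ n : ℤ, |q * al i - ((i : ℕ) + 1) / (r + 1) - n| ≤ d)
    (he : S * (1 / (r + 1) + 2 * d) < ep)
    (hv : ∀ c : Fin r → ℕ, ∑ i, c i ≤ (S + 1) * q →
      (∃ n : ℤ, be ≤ ∑ i, al i * c i - n ∧ ∑ i, al i * c i - n < be + ep) →
      MvPolynomial.eval (fun i => (c i : ℚ)) G = 0) : G = 0 := by
  classical
  have : Fact q.Prime := ⟨hq⟩
  have hS0 : 0 < S := by
    rcases Nat.eq_zero_or_pos S with h | h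
    · rw [h, zero_mul] at hG
      omega
    · exact h
  by_contra hG0
  obtain ⟨g, hg⟩ := binom_basis G hG
  have hne : ∃ l ∈ T r (S * q), g l ≠ 0 := by
    by_contra hcon
    push Not at hcon
    apply hG0
    apply funext_set (fun _ : Fin r => Set.range (Nat.cast : ℕ → ℚ))
      (fun _ => Set.infinite_range_of_injective Nat.cast_injective)
    intro x hx
    have hx' : ∀ i, ∃ n : ℕ, (n : ℚ) = x i := fun i => by
      have := hx i (Set.mem_univ i)
      exact this
    choose c hc using hx'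
    have hxc : x = fun i => (c i : ℚ) := by
      funext i
      exact (hc i).symm
    rw [hxc, hg c, map_zero]
    exact sum_eq_zero fun l hl => by rw [hcon l hl, zero_mul]
  obtain ⟨Z, lam, hlam, hZ, l1, hl1, hl1'⟩ := primitive (T r (S * q)) g q hq hne
  obtain ⟨b, a, hba, H⟩ := lucas (q := q) hS (fun l => (Z l : ZMod q))
    ⟨l1, hl1, by rwa [Ne, ZMod.intCast_zmod_eq_zero_iff_dvd]⟩
  have ha : ∑ i, a i < S := by
    have h1 : (∑ i, a i) * q < S * q := by omega
    exact lt_of_mul_lt_mul_right h1 (Nat.zero_le _)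
  obtain ⟨W, hW⟩ := position (q := q) hS0 al be d h0 hd b a ha
  obtain ⟨k, hk, hky⟩ := H W
  obtain ⟨y, hy, hys, n, hn1, hn2⟩ := hW k hk
  refine hky y hy ?_
  have hc : ∑ i, (b i + q * y i) ≤ (S + 1) * q := by
    rw [sum_add_distrib, ← mul_sum]
    have h1 : q * ∑ i, y i ≤ q * (∑ i, a i + 1) := Nat.mul_le_mul_left _ hys
    have h2 : q * (∑ i, a i + 1) = (∑ i, a i) * q + q := by ring
    have h3 : (S + 1) * q = S * q + q := by ring
    omega
  have h1 := hv (fun i => b i + q * y i) hc ⟨n, hn1, by linarith⟩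
  rw [hg] at h1
  have h2 : ∑ l ∈ T r (S * q), Z l * ∏ i, (((b i + q * y i).choose (l i) : ℕ) : ℤ) = 0 := by
    have h3 : ((∑ l ∈ T r (S * q), Z l * ∏ i, (((b i + q * y i).choose (l i) : ℕ) : ℤ) : ℤ) : ℚ) =
        lam * ∑ l ∈ T r (S * q), g l * ∏ i, (((b i + q * y i).choose (l i) : ℕ) : ℚ) := by
      push_cast
      rw [mul_sum]
      refine sum_congr rfl fun l hl => ?_
      rw [hZ l hl]
      ring
    rw [h1, mul_zero] at h3
    exact_mod_cast h3
  have h4 := congrArg (Int.cast : ℤ → ZMod q) h2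
  push_cast at h4
  exact h4

end Pool.Agent.Helper76.ZD
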